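import Mathlib

/-!
# A function whose difference quotients avoid a sequence of windows, with prescribed values

Version with parameters of `Pool.Agent.H316R3.NL.Basic` (the construction is due to the author of
that file): the values `U k`, the radii `r k`, the centre `c` and the length `l` are arbitrary.
-/

set_option autoImplicit false

open MeasureTheory Set Filter Topology
open scoped ENNReal

namespace Pool.Agent.Y893.NL

/-- the parameters of the construction -/
structure Dat where
  /-- the centre -/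
  c : ℝ
  /-- the length of the interval -/
  l : ℝ
  /-- the values -/
  U : ℕ → ℝ
  /-- the radii -/
  r : ℕ → ℝ
  l_pos : 0 < l
  r_pos : ∀ k, 0 < r k
  U_zero : U 0 = 4
  U_succ : ∀ k, 4 * U k ≤ U (k + 1)
  win : ∀ k : ℕ, ((k : ℝ) + 4) * (U k / (2 * r k)) ≤ U (k + 1) / (2 * l)
  vol : ∀ k : ℕ, 2 * 3 ^ k * r k ≤ l / 16 * (1 / 2) ^ k

namespace Dat

variable (D : Dat)

open Classical in
/-- the jump points -/
noncomputable def B : ℕ → Finset ℝ
  | 0 => {D.c}
  | k + 1 => (B k ∪ (B k).image (fun b => b + D.r k)) ∪ (B k).image (fun b => b - D.r k)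

/-- the neighbourhoods of the jump points -/
def G (k : ℕ) : Set ℝ := ⋃ b ∈ D.B k, Ioo (b - D.r k) (b + D.r k)

open Classical in
/-- the approximating step functions -/
noncomputable def uk : ℕ → ℝ → ℝ
  | 0 => fun x => if x < D.c then 0 else 4
  | k + 1 => fun x => if x ∈ D.G k then D.U (k + 1) else uk k x

/-- the function -/
noncomputable def u (x : ℝ) : ℝ := (⨆ k, ENNReal.ofReal (D.uk k x)).toReal

lemma U_pos (k : ℕ) : 0 < D.U k := by
  induction k with
  | zero => rw [D.U_zero]; norm_num
  | succ k ih => linarith [D.U_succ k]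

lemma U_mono : Monotone D.U := monotone_nat_of_le_succ fun k => by
  linarith [D.U_succ k, D.U_pos k]

lemma r_le (k : ℕ) : D.r k ≤ D.l := by
  have h := D.vol k
  have hr := D.r_pos k
  have hl := D.l_pos
  have h1 : (1 : ℝ) ≤ 3 ^ k := one_le_pow₀ (by norm_num)
  have h2 : ((1 : ℝ) / 2) ^ k ≤ 1 := pow_le_one₀ (by norm_num) (by norm_num)
  nlinarith [mul_le_mul_of_nonneg_right h1 hr.le, mul_le_mul_of_nonneg_left h2 hl.le]

lemma uk_nonneg (k : ℕ) (x : ℝ) : 0 ≤ D.uk k x := by
  induction k with
  | zero => simp only [uk]; split_ifs <;> norm_num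
  | succ k ih => simp only [uk]; split_ifs; exacts [(D.U_pos _).le, ih]

lemma uk_le (k : ℕ) (x : ℝ) : D.uk k x ≤ D.U k := by
  induction k with
  | zero => simp only [uk, D.U_zero]; split_ifs <;> norm_num
  | succ k ih =>
    simp only [uk]
    split_ifs
    · exact le_rfl
    · exact ih.trans (D.U_mono (Nat.le_succ k))

lemma uk_mono_succ (k : ℕ) (x : ℝ) : D.uk k x ≤ D.uk (k + 1) x := by
  by_cases h : x ∈ D.G k
  · simp only [uk, if_pos h]
    exact (D.uk_le k x).trans (D.U_mono (Nat.le_succ k))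
  · simp only [uk, if_neg h]; exact le_rfl

lemma uk_mono (x : ℝ) : Monotone (fun k => D.uk k x) :=
  monotone_nat_of_le_succ fun k => D.uk_mono_succ k x

lemma measurableSet_G (k : ℕ) : MeasurableSet (D.G k) := by
  unfold G
  exact Finset.measurableSet_biUnion _ fun _ _ => measurableSet_Ioo

lemma measurable_uk (k : ℕ) : Measurable (D.uk k) := by
  induction k with
  | zero => exact Measurable.ite measurableSet_Iio measurable_const measurable_const
  | succ k ih => exact Measurable.ite (D.measurableSet_G k) measurable_const ih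

lemma measurable_u : Measurable D.u := by
  unfold u
  exact (Measurable.iSup fun k => (D.measurable_uk k).ennreal_ofReal).ennreal_toReal

lemma uk_eq_of_le {x : ℝ} {N k : ℕ} (h : ∀ j, N ≤ j → x ∉ D.G j) (hk : N ≤ k) :
    D.uk k x = D.uk N x := by
  induction k, hk using Nat.le_induction with
  | base => rfl
  | succ k hk ih => simp only [uk, if_neg (h k hk)]; exact ih

lemma u_eq {x : ℝ} {N : ℕ} (h : ∀ j, N ≤ j → x ∉ D.G j) : D.u x = D.uk N x := by
  unfold u
  have : (⨆ k, ENNReal.ofReal (D.uk k x)) = ENNReal.ofReal (D.uk N x) := by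
    apply le_antisymm
    · apply iSup_le
      intro k
      apply ENNReal.ofReal_le_ofReal
      rcases le_total N k with hk | hk
      · rw [D.uk_eq_of_le h hk]
      · exact D.uk_mono x hk
    · exact le_iSup (fun k => ENNReal.ofReal (D.uk k x)) N
  rw [this, ENNReal.toReal_ofReal (D.uk_nonneg N x)]

lemma B_subset (k : ℕ) : D.B k ⊆ D.B (k + 1) := by
  intro b hb
  simp only [B, Finset.mem_union]
  exact Or.inl (Or.inl hb)

/-- `uk k` is constant on intervals free of jump points. -/
lemma uk_const (k : ℕ) : ∀ x y : ℝ, x ≤ y → (∀ b ∈ D.B k, ¬ (x ≤ b ∧ b ≤ y)) →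
    D.uk k x = D.uk k y := by
  induction k with
  | zero =>
    intro x y hxy h
    have h1 := h D.c (by simp [B])
    simp only [uk]
    by_cases hx : x < D.c
    · have hy : y < D.c := by
        by_contra hy
        exact h1 ⟨hx.le, not_lt.1 hy⟩
      rw [if_pos hx, if_pos hy]
    · have hy : ¬ y < D.c := fun hy => hx (lt_of_le_of_lt hxy hy)
      rw [if_neg hx, if_neg hy]
  | succ k ih =>
    intro x y hxy h
    have h0 := ih x y hxy (fun b hb => h b (D.B_subset k hb))
    have hG : x ∈ D.G k ↔ y ∈ D.G k := by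
      simp only [G, mem_iUnion, mem_Ioo, exists_prop]
      constructor
      · rintro ⟨b, hb, h1, h2⟩
        refine ⟨b, hb, by linarith, ?_⟩
        by_contra h3
        refine h (b + D.r k) ?_ ⟨h2.le, not_lt.1 h3⟩
        simp only [B, Finset.mem_union, Finset.mem_image]
        exact Or.inl (Or.inr ⟨b, hb, rfl⟩)
      · rintro ⟨b, hb, h1, h2⟩
        refine ⟨b, hb, ?_, by linarith⟩
        by_contra h3
        refine h (b - D.r k) ?_ ⟨not_lt.1 h3, h1.le⟩
        simp only [B, Finset.mem_union, Finset.mem_image]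
        exact Or.inr ⟨b, hb, rfl⟩
    simp only [uk]
    by_cases hx : x ∈ D.G k
    · rw [if_pos hx, if_pos (hG.1 hx)]
    · rw [if_neg hx, if_neg (fun hy => hx (hG.2 hy)), h0]

lemma sep_aux {k : ℕ} {x y : ℝ} (hxy : x ≤ y) (hx : x ∉ D.G k) (hy : y ∉ D.G k)
    (hne : D.uk k x ≠ D.uk k y) : 2 * D.r k ≤ y - x := by
  have : ∃ b ∈ D.B k, x ≤ b ∧ b ≤ y := by
    by_contra hcon
    push Not at hcon
    exact hne (D.uk_const k x y hxy (fun b hb h => absurd h.2 (not_le.2 (hcon b hb h.1))))
  obtain ⟨b, hb, h1, h2⟩ := this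
  have hx' : x ≤ b - D.r k := by
    by_contra hcon
    apply hx
    simp only [G, mem_iUnion, mem_Ioo, exists_prop]
    exact ⟨b, hb, not_le.1 hcon, by linarith [D.r_pos k]⟩
  have hy' : b + D.r k ≤ y := by
    by_contra hcon
    apply hy
    simp only [G, mem_iUnion, mem_Ioo, exists_prop]
    exact ⟨b, hb, by linarith [D.r_pos k], not_le.1 hcon⟩
  linarith

lemma sep {k : ℕ} {x y : ℝ} (hx : x ∉ D.G k) (hy : y ∉ D.G k)
    (hne : D.uk k x ≠ D.uk k y) : 2 * D.r k ≤ |y - x| := by
  rcases le_total x y with h | h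
  · rw [abs_of_nonneg (by linarith)]; exact D.sep_aux h hx hy hne
  · rw [abs_sub_comm, abs_of_nonneg (by linarith)]; exact D.sep_aux h hy hx hne.symm

/-- left end of the `k`-th window -/
noncomputable def a (k : ℕ) : ℝ := D.U k / (2 * D.r k)

/-- right end of the `k`-th window -/
noncomputable def b (k : ℕ) : ℝ := D.U (k + 1) / (2 * D.l)

lemma a_pos (k : ℕ) : 0 < D.a k := div_pos (D.U_pos k) (by linarith [D.r_pos k])

lemma win' (k : ℕ) : ((k : ℝ) + 4) * D.a k ≤ D.b k := D.win k

lemma four_a (k : ℕ) : 4 * D.a k ≤ D.b k := by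
  have h := D.win' k
  have h1 := D.a_pos k
  have h2 : (0 : ℝ) ≤ k := Nat.cast_nonneg k
  nlinarith

lemma half_U_le_a (k : ℕ) : D.U k / (2 * D.l) ≤ D.a k := by
  unfold a
  have := D.r_le k
  have := D.r_pos k
  exact div_le_div_of_nonneg_left (D.U_pos k).le (by linarith) (by linarith)

lemma b_le_a (k : ℕ) : D.b k ≤ D.a (k + 1) := D.half_U_le_a (k + 1)

lemma a_succ (k : ℕ) : 4 * D.a k ≤ D.a (k + 1) := (D.four_a k).trans (D.b_le_a k)

lemma a_mono : Monotone D.a := monotone_nat_of_le_succ fun k => by linarith [D.a_succ k, D.a_pos k]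

lemma b_mono : Monotone D.b := by
  intro i j hij
  unfold b
  have := D.U_mono (Nat.succ_le_succ hij)
  have := D.l_pos
  gcongr

/-- the complement of the windows -/
def Z : Set ℝ := (⋃ k, Ioo (D.a k) (D.b k))ᶜ

/-- The main dichotomy. -/
lemma quotient {x y : ℝ} (hx : ∃ N, ∀ j, N ≤ j → x ∉ D.G j) (hy : ∃ N, ∀ j, N ≤ j → y ∉ D.G j)
    (hd : |y - x| ≤ D.l) (hne : D.u x ≠ D.u y) :
    ∃ K : ℕ, 2 * D.r K ≤ |y - x| ∧ |D.u y - D.u x| / |y - x| ∈ D.Z ∧
      (K = 0 ∨ D.U K / (2 * D.l) ≤ |D.u y - D.u x| / |y - x|) := by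
  classical
  obtain ⟨N₁, h₁⟩ := hx
  obtain ⟨N₂, h₂⟩ := hy
  have hex : ∃ K, ∀ j, K ≤ j → x ∉ D.G j ∧ y ∉ D.G j :=
    ⟨max N₁ N₂, fun j hj => ⟨h₁ j (le_trans (le_max_left _ _) hj), h₂ j (le_trans (le_max_right _ _) hj)⟩⟩
  set K := Nat.find hex with hK
  have hKs : ∀ j, K ≤ j → x ∉ D.G j ∧ y ∉ D.G j := Nat.find_spec hex
  have hux : D.u x = D.uk K x := D.u_eq fun j hj => (hKs j hj).1
  have huy : D.u y = D.uk K y := D.u_eq fun j hj => (hKs j hj).2
  have hne' : D.uk K x ≠ D.uk K y := by rw [← hux, ← huy]; exact hne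
  have hsep := D.sep (hKs K le_rfl).1 (hKs K le_rfl).2 hne'
  have hpos : 0 < |y - x| := lt_of_lt_of_le (by linarith [D.r_pos K]) hsep
  have hle : |D.u y - D.u x| / |y - x| ≤ D.a K := by
    have h1 : |D.u y - D.u x| ≤ D.U K := by
      rw [hux, huy, abs_le]
      have := D.uk_nonneg K x
      have := D.uk_nonneg K y
      have := D.uk_le K x
      have := D.uk_le K y
      constructor <;> linarith
    unfold a
    exact div_le_div₀ (D.U_pos K).le h1 (by linarith [D.r_pos K]) hsep
  have hge : K = 0 ∨ D.U K / (2 * D.l) ≤ |D.u y - D.u x| / |y - x| := by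
    rcases Nat.eq_zero_or_pos K with h0 | h0
    · exact Or.inl h0
    · right
      obtain ⟨K', hK'⟩ : ∃ K', K = K' + 1 := ⟨K - 1, by omega⟩
      have hmin := Nat.find_min hex (m := K') (by omega)
      push Not at hmin
      obtain ⟨j, hj1, hj2⟩ := hmin
      have hjK : j = K' := by
        by_contra hcon
        have := hKs j (by omega)
        exact this.2 (hj2 this.1)
      subst hjK
      have h1 : D.U K / 2 ≤ |D.u y - D.u x| := by
        rw [hux, huy, hK']
        by_cases hxG : x ∈ D.G j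
        · have e1 : D.uk (j + 1) x = D.U (j + 1) := by simp only [uk, if_pos hxG]
          have hyG : y ∉ D.G j := by
            intro hyG
            apply hne'
            rw [hK', e1]; simp only [uk, if_pos hyG]
          have e2 : D.uk (j + 1) y = D.uk j y := by simp only [uk, if_neg hyG]
          rw [e1, e2, abs_sub_comm, le_abs]
          left
          linarith [D.uk_le j y, D.U_succ j, D.U_pos j]
        · have hyG : y ∈ D.G j := by
            by_contra hyG
            exact hyG (hj2 hxG)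
          have e1 : D.uk (j + 1) y = D.U (j + 1) := by simp only [uk, if_pos hyG]
          have e2 : D.uk (j + 1) x = D.uk j x := by simp only [uk, if_neg hxG]
          rw [e1, e2, le_abs]
          left
          linarith [D.uk_le j x, D.U_succ j, D.U_pos j]
      have hl := D.l_pos
      rw [div_le_div_iff₀ (by linarith) hpos]
      have hU := D.U_pos K
      nlinarith [mul_le_mul_of_nonneg_left hd hU.le, mul_le_mul_of_nonneg_right h1 hl.le]
  refine ⟨K, hsep, ?_, hge⟩
  simp only [Z, mem_compl_iff, mem_iUnion, not_exists, mem_Ioo, not_and, not_lt]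
  intro j hj
  rcases lt_or_ge j K with h | h
  · rcases hge with h0 | h0
    · omega
    · obtain ⟨K', hK'⟩ : ∃ K', K = K' + 1 := ⟨K - 1, by omega⟩
      have h2 : D.b j ≤ D.b K' := D.b_mono (by omega)
      have h3 : D.b K' = D.U K / (2 * D.l) := by unfold b; rw [hK']
      linarith
  · have h2 := D.a_mono h
    linarith

lemma card_B (k : ℕ) : (D.B k).card ≤ 3 ^ k := by
  induction k with
  | zero => simp [B]
  | succ k ih =>
    simp only [B]
    calc _ ≤ (D.B k ∪ (D.B k).image (fun b => b + D.r k)).card +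
          ((D.B k).image (fun b => b - D.r k)).card := Finset.card_union_le _ _
      _ ≤ (D.B k).card + ((D.B k).image (fun b => b + D.r k)).card +
          ((D.B k).image (fun b => b - D.r k)).card :=
          Nat.add_le_add_right (Finset.card_union_le _ _) _
      _ ≤ (D.B k).card + (D.B k).card + (D.B k).card :=
          Nat.add_le_add (Nat.add_le_add_left Finset.card_image_le _) Finset.card_image_le
      _ ≤ 3 ^ (k + 1) := by rw [pow_succ]; omega

lemma volume_G (k : ℕ) : volume (D.G k) ≤ ENNReal.ofReal (2 * 3 ^ k * D.r k) := by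
  have hr := D.r_pos k
  calc volume (D.G k) ≤ ∑ b ∈ D.B k, volume (Ioo (b - D.r k) (b + D.r k)) := by
        unfold G; exact measure_biUnion_finset_le _ _
    _ = ∑ b ∈ D.B k, ENNReal.ofReal (2 * D.r k) := by
        refine Finset.sum_congr rfl fun b _ => ?_
        rw [Real.volume_Ioo]; congr 1; ring
    _ = ((D.B k).card : ℝ≥0∞) * ENNReal.ofReal (2 * D.r k) := by rw [Finset.sum_const, nsmul_eq_mul]
    _ ≤ ((3 ^ k : ℕ) : ℝ≥0∞) * ENNReal.ofReal (2 * D.r k) := by
        gcongr
        exact D.card_B k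
    _ = ENNReal.ofReal (2 * 3 ^ k * D.r k) := by
        rw [← ENNReal.ofReal_natCast, ← ENNReal.ofReal_mul (by positivity)]
        congr 1
        push_cast
        ring

lemma summable_geo (c : ℝ) : Summable fun k : ℕ => c * (1 / 2 : ℝ) ^ k :=
  (summable_geometric_of_lt_one (by norm_num) (by norm_num)).mul_left c

lemma tsum_volume_G : ∑' k, volume (D.G k) ≤ ENNReal.ofReal (D.l / 8) := by
  have hl := D.l_pos
  calc ∑' k, volume (D.G k) ≤ ∑' k : ℕ, ENNReal.ofReal (D.l / 16 * (1 / 2 : ℝ) ^ k) :=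
        ENNReal.tsum_le_tsum fun k => (D.volume_G k).trans (ENNReal.ofReal_le_ofReal (D.vol k))
    _ = ENNReal.ofReal (∑' k : ℕ, D.l / 16 * (1 / 2 : ℝ) ^ k) :=
        (ENNReal.ofReal_tsum_of_nonneg (fun k => by positivity) (summable_geo _)).symm
    _ = ENNReal.ofReal (D.l / 8) := by
        rw [tsum_mul_left, tsum_geometric_of_lt_one (by norm_num) (by norm_num)]
        congr 1
        ring

lemma ae_good : ∀ᵐ x : ℝ, ∃ N, ∀ j, N ≤ j → x ∉ D.G j := by
  have h : ∑' k, volume (D.G k) ≠ ∞ := (D.tsum_volume_G.trans_lt ENNReal.ofReal_lt_top).ne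
  filter_upwards [ae_eventually_notMem h] with x hx
  exact eventually_atTop.1 hx

/-- integrability of a gauge -/
lemma gauge_lt (φ : ℝ → ℝ) (s : Set ℝ) (hs : volume s ≠ ∞) (C : ℝ)
    (h : ∀ k : ℕ, φ (D.U (k + 1)) * (2 * 3 ^ k * D.r k) ≤ C * (1 / 2) ^ k) :
    ∫⁻ x in s, ENNReal.ofReal (φ |D.u x|) < ∞ := by
  have hpt : ∀ x : ℝ, (∃ N, ∀ j, N ≤ j → x ∉ D.G j) → ENNReal.ofReal (φ |D.u x|) ≤
      (ENNReal.ofReal (φ 0) + ENNReal.ofReal (φ 4)) +
        ∑' k, (D.G k).indicator (fun _ => ENNReal.ofReal (φ (D.U (k + 1)))) x := by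
    rintro x ⟨N, hN⟩
    rw [D.u_eq hN, abs_of_nonneg (D.uk_nonneg N x)]
    have : ∀ n, ENNReal.ofReal (φ (D.uk n x)) ≤ (ENNReal.ofReal (φ 0) + ENNReal.ofReal (φ 4)) +
        ∑ k ∈ Finset.range n, (D.G k).indicator (fun _ => ENNReal.ofReal (φ (D.U (k + 1)))) x := by
      intro n
      induction n with
      | zero =>
        simp only [Finset.range_zero, Finset.sum_empty, add_zero, uk]
        split_ifs
        · exact le_self_add
        · exact le_add_self
      | succ n ih =>
        rw [Finset.sum_range_succ]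
        by_cases hx : x ∈ D.G n
        · have e : D.uk (n + 1) x = D.U (n + 1) := by simp only [uk, if_pos hx]
          rw [e, indicator_of_mem hx, ← add_assoc]
          exact le_add_self
        · have e : D.uk (n + 1) x = D.uk n x := by simp only [uk, if_neg hx]
          rw [e, indicator_of_notMem hx, add_zero]
          exact ih
    refine (this N).trans ?_
    gcongr
    exact ENNReal.sum_le_tsum _
  calc ∫⁻ x in s, ENNReal.ofReal (φ |D.u x|)
      ≤ ∫⁻ x in s, ((ENNReal.ofReal (φ 0) + ENNReal.ofReal (φ 4)) +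
        ∑' k, (D.G k).indicator (fun _ => ENNReal.ofReal (φ (D.U (k + 1)))) x) := by
        apply lintegral_mono_ae
        filter_upwards [ae_restrict_of_ae D.ae_good] with x hx
        exact hpt x hx
    _ = (ENNReal.ofReal (φ 0) + ENNReal.ofReal (φ 4)) * volume s + ∑' k, ∫⁻ x in s,
        (D.G k).indicator (fun _ => ENNReal.ofReal (φ (D.U (k + 1)))) x := by
        rw [lintegral_add_left measurable_const, lintegral_tsum]
        · rw [setLIntegral_const]
        · intro k
          exact (measurable_const.indicator (D.measurableSet_G k)).aemeasurable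
    _ ≤ (ENNReal.ofReal (φ 0) + ENNReal.ofReal (φ 4)) * volume s +
        ∑' k : ℕ, ENNReal.ofReal (|C| * (1 / 2 : ℝ) ^ k) := by
        gcongr with k
        calc ∫⁻ x in s, (D.G k).indicator (fun _ => ENNReal.ofReal (φ (D.U (k + 1)))) x
            ≤ ∫⁻ x, (D.G k).indicator (fun _ => ENNReal.ofReal (φ (D.U (k + 1)))) x :=
              setLIntegral_le_lintegral _ _
          _ = ENNReal.ofReal (φ (D.U (k + 1))) * volume (D.G k) := by
              rw [lintegral_indicator_const (D.measurableSet_G k)]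
          _ ≤ ENNReal.ofReal (φ (D.U (k + 1))) * ENNReal.ofReal (2 * 3 ^ k * D.r k) := by
              gcongr; exact D.volume_G k
          _ = ENNReal.ofReal (φ (D.U (k + 1)) * (2 * 3 ^ k * D.r k)) := by
              have := D.r_pos k
              rw [← ENNReal.ofReal_mul' (by positivity)]
          _ ≤ _ := by
              apply ENNReal.ofReal_le_ofReal
              refine (h k).trans ?_
              gcongr
              exact le_abs_self C
    _ < ∞ := by
        apply ENNReal.add_lt_top.2 ⟨ENNReal.mul_lt_top ?_ (lt_top_iff_ne_top.2 hs), ?_⟩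
        · exact ENNReal.add_lt_top.2 ⟨ENNReal.ofReal_lt_top, ENNReal.ofReal_lt_top⟩
        · exact (summable_geo _).tsum_ofReal_lt_top

/-- `u` is not constant on the interval of length `l` around `c` -/
lemma not_const : ¬ ∃ t : ℝ, ∀ᵐ x ∂(volume.restrict (Ioo (D.c - D.l / 2) (D.c + D.l / 2))),
    D.u x = t := by
  have hl := D.l_pos
  rintro ⟨c, hc⟩
  rw [ae_restrict_iff' measurableSet_Ioo] at hc
  set T : Set ℝ := {x | ¬ (x ∈ Ioo (D.c - D.l / 2) (D.c + D.l / 2) → D.u x = c)} with hT
  have hT0 : volume T = 0 := hc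
  have hS : volume (⋃ k, D.G k) ≤ ENNReal.ofReal (D.l / 8) :=
    (measure_iUnion_le _).trans D.tsum_volume_G
  have key : ∀ p q : ℝ, q - p = D.l / 2 → ∃ x ∈ Ioo p q, x ∉ (⋃ k, D.G k) ∧ x ∉ T := by
    intro p q hpq
    by_contra hcon
    push Not at hcon
    have hsub : Ioo p q ⊆ (⋃ k, D.G k) ∪ T := by
      intro x hx
      by_cases h : x ∈ ⋃ k, D.G k
      · exact Or.inl h
      · exact Or.inr (hcon x hx h)
    have h1 := (measure_mono (μ := volume) hsub).trans (measure_union_le _ _)
    rw [hT0, add_zero, Real.volume_Ioo, hpq] at h1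
    have h2 := h1.trans hS
    rw [ENNReal.ofReal_le_ofReal_iff (by positivity)] at h2
    linarith
  obtain ⟨x, hx, hxG, hxT⟩ := key (D.c - D.l / 2) D.c (by ring)
  obtain ⟨y, hy, hyG, hyT⟩ := key D.c (D.c + D.l / 2) (by ring)
  simp only [mem_iUnion, not_exists] at hxG hyG
  have hux : D.u x = c := by
    simp only [hT, mem_ofPred_eq, not_not] at hxT
    exact hxT ⟨hx.1, by linarith [hx.2]⟩
  have huy : D.u y = c := by
    simp only [hT, mem_ofPred_eq, not_not] at hyT
    exact hyT ⟨by linarith [hy.1], hy.2⟩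
  rw [D.u_eq (N := 0) fun j _ => hxG j] at hux
  rw [D.u_eq (N := 0) fun j _ => hyG j] at huy
  simp only [uk, if_pos hx.2] at hux
  simp only [uk, if_neg (not_lt.2 hy.1.le)] at huy
  linarith

end Dat

end Pool.Agent.Y893.NL
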