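import Pool.Agent.Y893.NL.Seq

/-!
# The functional and the integral condition
-/

set_option autoImplicit false

open MeasureTheory Set Filter Topology
open scoped ENNReal

namespace Pool.Agent.Y893.NL

/-- a power below `1` is dominated by the gauge `t / (1 + log (1 + t))` -/
lemma rpow_le_gauge (α : ℝ) (h0 : 0 < α) (h1 : α < 1) (t : ℝ) (ht : 0 ≤ t) :
    t ^ α ≤ 1 + (1 + 2 / (1 - α)) * (t / (1 + Real.log (1 + t))) := by
  have hβ : 0 < 1 - α := by linarith
  have hlog : 0 ≤ Real.log (1 + t) := Real.log_nonneg (by linarith)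
  rcases le_or_gt t 1 with h | h
  · have h2 : t ^ α ≤ 1 := Real.rpow_le_one ht h h0.le
    have h3 : 0 ≤ (1 + 2 / (1 - α)) * (t / (1 + Real.log (1 + t))) := by positivity
    linarith
  · have ht0 : 0 < t := by linarith
    have h2 : Real.log (1 + t) ≤ (1 + t) ^ (1 - α) / (1 - α) :=
      Real.log_le_rpow_div (by linarith) hβ
    have h3 : (1 + t) ^ (1 - α) ≤ 2 * t ^ (1 - α) := by
      calc (1 + t) ^ (1 - α) ≤ (2 * t) ^ (1 - α) :=
            Real.rpow_le_rpow (by linarith) (by linarith) hβ.le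
        _ = 2 ^ (1 - α) * t ^ (1 - α) := Real.mul_rpow (by norm_num) ht0.le
        _ ≤ 2 * t ^ (1 - α) := by
            have : (2 : ℝ) ^ (1 - α) ≤ 2 ^ (1 : ℝ) :=
              Real.rpow_le_rpow_of_exponent_le (by norm_num) (by linarith)
            rw [Real.rpow_one] at this
            gcongr
    have h4 : t ^ α * t ^ (1 - α) = t := by
      rw [← Real.rpow_add ht0]
      simp
    have h5 : t ^ α ≤ t := by
      calc t ^ α ≤ t ^ (1 : ℝ) := Real.rpow_le_rpow_of_exponent_le h.le h1.le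
        _ = t := Real.rpow_one t
    have h6 : t ^ α * (1 + Real.log (1 + t)) ≤ (1 + 2 / (1 - α)) * t := by
      have h7 : 0 ≤ t ^ α := Real.rpow_nonneg ht _
      calc t ^ α * (1 + Real.log (1 + t)) ≤ t ^ α * (1 + 2 * t ^ (1 - α) / (1 - α)) := by
            gcongr
            exact h2.trans (by gcongr)
        _ = t ^ α + 2 / (1 - α) * (t ^ α * t ^ (1 - α)) := by ring
        _ ≤ t + 2 / (1 - α) * t := by rw [h4]; linarith
        _ = (1 + 2 / (1 - α)) * t := by ring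
    have h7 : t ^ α ≤ (1 + 2 / (1 - α)) * (t / (1 + Real.log (1 + t))) := by
      rw [← mul_div_assoc, le_div_iff₀ (by linarith)]
      exact h6
    linarith

/-- the gauge `t / (1 + log (1 + t))` is sublinear -/
lemma log_gauge (ε : ℝ) (hε : 0 < ε) : ∃ T0 : ℝ, 0 < T0 ∧ ∀ t, T0 ≤ t →
    t / (1 + Real.log (1 + t)) ≤ ε * t := by
  refine ⟨Real.exp (1 / ε), Real.exp_pos _, fun t ht => ?_⟩
  have ht0 : 0 < t := lt_of_lt_of_le (Real.exp_pos _) ht
  have h1 : 1 / ε ≤ Real.log (1 + t) := by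
    rw [Real.le_log_iff_exp_le (by linarith)]
    linarith
  have h2 : 0 < 1 / ε := by positivity
  rw [div_le_iff₀ (by linarith)]
  have h3 : 1 ≤ ε * (1 + Real.log (1 + t)) := by
    have : ε * (1 / ε) = 1 := by field_simp
    nlinarith
  nlinarith

namespace Dat

variable (D : Dat)

/-- far windows -/
lemma a_large (x : ℝ) : ∃ N : ℕ, ∀ k, N ≤ k → x < D.a k := by
  obtain ⟨N, hN⟩ := D.s_large x
  exact ⟨N, fun k hk => (hN k hk).trans_le (D.half_U_le_a k)⟩

lemma integral_condition (ω : ℝ → ℝ) (h : ∀ t, 1 ≤ t → t ∈ D.Inner → t ≤ ω t) :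
    ∫⁻ t in Ioi (1 : ℝ), ENNReal.ofReal (ω t / t ^ 2) = ∞ := by
  obtain ⟨N, hN⟩ := D.a_large 1
  have ha1 : ∀ k, 1 < D.a (k + N) := fun k => hN (k + N) (by omega)
  have hdisj : Pairwise (Function.onFun Disjoint fun k =>
      Ioo (2 * D.a (k + N)) (3 * D.a (k + N))) := by
    intro i j hij
    rw [Function.onFun, Set.disjoint_left]
    intro t hi hj
    rcases lt_or_gt_of_ne hij with h | h
    · have h1 := D.a_mono (show i + N + 1 ≤ j + N by omega)
      have h2 := D.a_succ (i + N)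
      have := D.a_pos (i + N)
      have := D.a_pos (j + N)
      linarith [hi.2, hj.1]
    · have h1 := D.a_mono (show j + N + 1 ≤ i + N by omega)
      have h2 := D.a_succ (j + N)
      have := D.a_pos (i + N)
      have := D.a_pos (j + N)
      linarith [hi.1, hj.2]
  have hsub : (⋃ k, Ioo (2 * D.a (k + N)) (3 * D.a (k + N))) ⊆ Ioi (1 : ℝ) := by
    apply iUnion_subset
    intro k t ht
    have := ha1 k
    show 1 < t
    linarith [ht.1]
  have h1 : ∫⁻ t in (⋃ k, Ioo (2 * D.a (k + N)) (3 * D.a (k + N))), ENNReal.ofReal (ω t / t ^ 2)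
      ≤ ∫⁻ t in Ioi (1 : ℝ), ENNReal.ofReal (ω t / t ^ 2) := lintegral_mono_set hsub
  rw [lintegral_iUnion (fun k => measurableSet_Ioo) hdisj] at h1
  have h2 : ∀ k, ENNReal.ofReal (1 / 3) ≤
      ∫⁻ t in Ioo (2 * D.a (k + N)) (3 * D.a (k + N)), ENNReal.ofReal (ω t / t ^ 2) := by
    intro k
    have hpos := D.a_pos (k + N)
    calc ENNReal.ofReal (1 / 3) =
        ENNReal.ofReal (1 / (3 * D.a (k + N))) *
          volume (Ioo (2 * D.a (k + N)) (3 * D.a (k + N))) := by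
          rw [Real.volume_Ioo, ← ENNReal.ofReal_mul (by positivity)]
          congr 1
          field_simp
          norm_num
      _ = ∫⁻ t in Ioo (2 * D.a (k + N)) (3 * D.a (k + N)),
          ENNReal.ofReal (1 / (3 * D.a (k + N))) := by
          rw [setLIntegral_const]
      _ ≤ _ := by
          apply setLIntegral_mono' measurableSet_Ioo
          intro t ht
          apply ENNReal.ofReal_le_ofReal
          have ht1 : 1 ≤ t := by linarith [ht.1, ha1 k]
          have ht0 : 0 < t := by linarith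
          have hin : t ∈ D.Inner := by
            simp only [Inner, mem_iUnion, mem_Icc]
            refine ⟨k + N, ht.1.le, ?_⟩
            have h3 : (0 : ℝ) ≤ ((k + N : ℕ) : ℝ) := Nat.cast_nonneg _
            nlinarith [ht.2]
          have h4 := h t ht1 hin
          rw [div_le_div_iff₀ (by positivity) (by positivity)]
          have h5 : t ≤ 3 * D.a (k + N) := ht.2.le
          nlinarith [mul_le_mul_of_nonneg_left h5 ht0.le, mul_le_mul_of_nonneg_right h4
            (show (0 : ℝ) ≤ 3 * D.a (k + N) by positivity)]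
  have h3 : (∞ : ℝ≥0∞) ≤ ∑' k, ∫⁻ t in Ioo (2 * D.a (k + N)) (3 * D.a (k + N)),
      ENNReal.ofReal (ω t / t ^ 2) := by
    calc (∞ : ℝ≥0∞) = ∑' _ : ℕ, ENNReal.ofReal (1 / 3) :=
          (ENNReal.tsum_const_eq_top_of_ne_zero (by simp)).symm
      _ ≤ _ := ENNReal.tsum_le_tsum h2
  exact top_le_iff.1 (h3.trans h1)

/-- intervals on which the weight is large -/
lemma windows (n : ℕ) : ∃ α : ℝ, (n : ℝ) ≤ α ∧ 1 ≤ α ∧
    ∀ t, α ≤ t → t ≤ n * α → t ∈ D.Inner := by
  obtain ⟨N, hN⟩ := D.a_large (max n 1)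
  have h1 := hN (N + 2 * n) (by omega)
  have h2 := (le_max_left (n : ℝ) 1).trans h1.le
  have h3 := (le_max_right (n : ℝ) 1).trans h1.le
  have hpos := D.a_pos (N + 2 * n)
  refine ⟨2 * D.a (N + 2 * n), by linarith, by linarith, fun t ht1 ht2 => ?_⟩
  simp only [Inner, mem_iUnion, mem_Icc]
  refine ⟨N + 2 * n, ht1, ht2.trans ?_⟩
  have h4 : (0 : ℝ) ≤ N := Nat.cast_nonneg N
  push_cast
  nlinarith

/-- the pointwise bound of the integrand -/
lemma pointwise (ω w : ℝ → ℝ) (h0 : ω 0 = 0)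
    (h : ∀ (K : ℕ) (q h : ℝ), 0 ≤ q → q ∈ D.Z → (K = 0 ∨ D.U K / (2 * D.l) ≤ q) →
        2 * D.r K ≤ h → h ≤ D.l → ω q * w h ≤ 1) {x y : ℝ}
    (hx : ∃ N, ∀ j, N ≤ j → x ∉ D.G j) (hy : ∃ N, ∀ j, N ≤ j → y ∉ D.G j)
    (hd : |y - x| ≤ D.l) : ω (|D.u y - D.u x| / |y - x|) * w |y - x| ≤ 1 := by
  by_cases hne : D.u x = D.u y
  · rw [hne, sub_self, abs_zero, zero_div, h0, zero_mul]; norm_num
  · obtain ⟨K, h1, h2, h3⟩ := D.quotient hx hy hd hne
    exact h K _ _ (by positivity) h2 h3 h1 hd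

lemma double_lt (ω w : ℝ → ℝ) (h0 : ω 0 = 0)
    (h : ∀ (K : ℕ) (q h : ℝ), 0 ≤ q → q ∈ D.Z → (K = 0 ∨ D.U K / (2 * D.l) ≤ q) →
        2 * D.r K ≤ h → h ≤ D.l → ω q * w h ≤ 1) (a b : ℝ) (hab : b - a ≤ D.l) :
    ∀ᵐ x ∂(volume.restrict (Ioo a b)), ∀ᵐ y ∂(volume.restrict (Ioo a b)),
      ω (|D.u y - D.u x| / |y - x|) * w |y - x| ≤ 1 := by
  filter_upwards [ae_restrict_of_ae D.ae_good, ae_restrict_mem measurableSet_Ioo] with x hx hx1
  filter_upwards [ae_restrict_of_ae D.ae_good, ae_restrict_mem measurableSet_Ioo] with y hy hy1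
  refine D.pointwise ω w h0 h hx hy ?_
  rw [abs_le]
  constructor <;> linarith [hx1.1, hx1.2, hy1.1, hy1.2]

end Dat

end Pool.Agent.Y893.NL
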