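import Pool.Agent.Y893.NL.Basic

/-!
# The choice of the sequences and of the weight
-/

set_option autoImplicit false

open MeasureTheory Set Filter Topology
open scoped ENNReal

namespace Pool.Agent.Y893.NL

/-- the sequences for countably many gauges `φ n` with common `liminf φ(t)/t ≤ 0` -/
lemma exists_dat (c l : ℝ) (hl : 0 < l) (φ : ℕ → ℝ → ℝ)
    (hφ : ∀ ε : ℝ, 0 < ε → ∀ (n : ℕ) (T : ℝ), ∃ t, T ≤ t ∧ ∀ j ≤ n, φ j t ≤ ε * t) :
    ∃ D : Dat, D.c = c ∧ D.l = l ∧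
      ∀ j : ℕ, ∃ C : ℝ, ∀ k : ℕ, φ j (D.U (k + 1)) * (2 * 3 ^ k * D.r k) ≤ C * (1 / 2) ^ k := by
  have h1 : ∀ (k : ℕ) (x : ℝ), ∃ V : ℝ, 0 < x → 4 * x ≤ V ∧
      32 * 6 ^ k * (k + 4) * x ≤ V ∧
      ∀ j ≤ k, φ j V ≤ 1 / (2 * 6 ^ k * (k + 4) * l * x) * V := by
    intro k x
    by_cases hx : 0 < x
    · obtain ⟨V, hV1, hV2⟩ := hφ (1 / (2 * 6 ^ k * (k + 4) * l * x)) (by positivity) k
        (max (4 * x) (32 * 6 ^ k * (k + 4) * x))
      exact ⟨V, fun _ => ⟨(le_max_left _ _).trans hV1, (le_max_right _ _).trans hV1, hV2⟩⟩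
    · exact ⟨0, fun h => absurd h hx⟩
  choose f hf using h1
  let U : ℕ → ℝ := fun n => Nat.rec 4 (fun k x => f k x) n
  have hU0 : U 0 = 4 := rfl
  have hUs : ∀ k, U (k + 1) = f k (U k) := fun k => rfl
  have hU : ∀ k, 0 < U k := by
    intro k
    induction k with
    | zero => rw [hU0]; norm_num
    | succ k ih => rw [hUs]; linarith [(hf k (U k) ih).1]
  refine ⟨⟨c, l, U, fun k => (k + 4) * l * U k / U (k + 1), hl, ?_, hU0, ?_, ?_, ?_⟩, rfl, rfl, ?_⟩
  · intro k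
    have := hU k
    have := hU (k + 1)
    positivity
  · intro k
    exact (hf k (U k) (hU k)).1
  · intro k
    have h2 := hU k
    have h3 := hU (k + 1)
    apply le_of_eq
    have h4 : (k : ℝ) + 4 ≠ 0 := by positivity
    field_simp
  · intro k
    have h2 := hU k
    have h3 := hU (k + 1)
    have h4 := (hf k (U k) h2).2.1
    rw [← hUs] at h4
    have e : 2 * 3 ^ k * (((k : ℝ) + 4) * l * U k / U (k + 1)) =
        l / 16 * (1 / 2) ^ k * ((32 * 6 ^ k * (k + 4) * U k) / U (k + 1)) := by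
      have h6 : (6 : ℝ) ^ k = 3 ^ k * 2 ^ k := by rw [← mul_pow]; norm_num
      rw [h6, one_div, inv_pow]
      field_simp
      norm_num
    rw [e]
    have h5 : (32 * 6 ^ k * (k + 4) * U k) / U (k + 1) ≤ 1 := by
      rw [div_le_one h3]; exact h4
    have h7 : 0 ≤ l / 16 * (1 / 2 : ℝ) ^ k := by positivity
    calc l / 16 * (1 / 2) ^ k * ((32 * 6 ^ k * (k + 4) * U k) / U (k + 1)) ≤
        l / 16 * (1 / 2) ^ k * 1 := mul_le_mul_of_nonneg_left h5 h7
      _ = _ := mul_one _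
  · intro j
    show ∃ C : ℝ, ∀ k : ℕ, φ j (U (k + 1)) * (2 * 3 ^ k * (((k : ℝ) + 4) * l * U k / U (k + 1))) ≤
      C * (1 / 2) ^ k
    set g : ℕ → ℝ := fun k => |φ j (U (k + 1)) *
      (2 * 3 ^ k * (((k : ℝ) + 4) * l * U k / U (k + 1)))| * 2 ^ k with hg
    refine ⟨1 + ∑ k ∈ Finset.range j, g k, fun k => ?_⟩
    have h2 := hU k
    have h3 := hU (k + 1)
    have hg0 : ∀ k, 0 ≤ g k := fun k => by rw [hg]; positivity
    have hsum : 0 ≤ ∑ k ∈ Finset.range j, g k := Finset.sum_nonneg fun k _ => hg0 k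
    have hp : (0 : ℝ) < (1 / 2) ^ k := by positivity
    rcases lt_or_ge k j with hk | hk
    · have h4 : g k ≤ ∑ k ∈ Finset.range j, g k :=
        Finset.single_le_sum (fun k _ => hg0 k) (Finset.mem_range.2 hk)
      have h5 : φ j (U (k + 1)) * (2 * 3 ^ k * (((k : ℝ) + 4) * l * U k / U (k + 1))) ≤
          g k * (1 / 2) ^ k := by
        have e : g k * (1 / 2) ^ k = |φ j (U (k + 1)) *
            (2 * 3 ^ k * (((k : ℝ) + 4) * l * U k / U (k + 1)))| := by
          rw [hg]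
          simp only
          rw [mul_assoc, ← mul_pow]
          norm_num
        rw [e]
        exact le_abs_self _
      refine h5.trans (mul_le_mul_of_nonneg_right ?_ hp.le)
      linarith
    · have h4 := (hf k (U k) h2).2.2 j hk
      rw [← hUs] at h4
      have h5 : 0 ≤ 2 * 3 ^ k * (((k : ℝ) + 4) * l * U k / U (k + 1)) := by positivity
      have h8 : φ j (U (k + 1)) * (2 * 3 ^ k * (((k : ℝ) + 4) * l * U k / U (k + 1))) ≤
          1 * (1 / 2) ^ k := by
        refine (mul_le_mul_of_nonneg_right h4 h5).trans (le_of_eq ?_)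
        have h6 : (6 : ℝ) ^ k = 3 ^ k * 2 ^ k := by rw [← mul_pow]; norm_num
        rw [h6, one_div (2 : ℝ), inv_pow]
        have h7 : (k : ℝ) + 4 ≠ 0 := by positivity
        field_simp
      refine h8.trans (mul_le_mul_of_nonneg_right ?_ hp.le)
      linarith

namespace Dat

variable (D : Dat)

lemma U_ge (k : ℕ) : (k : ℝ) ≤ D.U k := by
  have h : (4 : ℝ) + k ≤ D.U k := by
    induction k with
    | zero => rw [D.U_zero]; norm_num
    | succ k ih =>
      have h1 := D.U_succ k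
      have h2 : (0 : ℝ) ≤ k := Nat.cast_nonneg k
      push_cast
      linarith
  linarith

/-- the left ends tend to infinity -/
lemma s_large (x : ℝ) : ∃ N : ℕ, ∀ k, N ≤ k → x < D.U k / (2 * D.l) := by
  have hl := D.l_pos
  obtain ⟨N, hN⟩ := exists_nat_gt (x * (2 * D.l))
  refine ⟨N, fun k hk => ?_⟩
  rw [lt_div_iff₀ (by linarith)]
  have h1 : (N : ℝ) ≤ k := by exact_mod_cast hk
  linarith [D.U_ge k]

lemma s_mono {i j : ℕ} (h : i ≤ j) : D.U i / (2 * D.l) ≤ D.U j / (2 * D.l) := by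
  have hl := D.l_pos
  have := D.U_mono h
  gcongr

/-- the inner windows -/
def Inner : Set ℝ := ⋃ k : ℕ, Icc (2 * D.a k) ((k + 3) * D.a k)

lemma isOpen_compl_Z : IsOpen D.Zᶜ := by
  unfold Z
  rw [compl_compl]
  exact isOpen_iUnion fun _ => isOpen_Ioo

lemma inner_far {x y : ℝ} (hx : x ∈ D.Z) (hy : |y - x| < D.a 0) : y ∉ D.Inner := by
  intro h
  simp only [Inner, mem_iUnion, mem_Icc] at h
  obtain ⟨k, h1, h2⟩ := h
  simp only [Z, mem_compl_iff, mem_iUnion, not_exists, mem_Ioo, not_and, not_lt] at hx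
  have h3 := hx k
  have h4 := D.a_mono (Nat.zero_le k)
  have h5 := D.win' k
  have h6 := abs_lt.1 hy
  have h7 : ((k : ℝ) + 4) * D.a k = (k + 3) * D.a k + D.a k := by ring
  by_cases h8 : D.a k < x
  · have := h3 h8
    linarith
  · linarith

/-- the weight -/
lemma exists_weight (Ψ w : ℝ → ℝ) (hΨ : ∀ M : ℝ, ∃ C : ℝ, ∀ t, 0 ≤ t → t ≤ M → Ψ t ≤ C)
    (hw : ∀ δ : ℝ, 0 < δ → ∃ C : ℝ, ∀ h, δ ≤ h → h ≤ D.l → w h ≤ C) :
    ∃ ω : ℝ → ℝ, Continuous ω ∧ (∀ t, 0 ≤ t → 0 ≤ ω t) ∧ ω 0 = 0 ∧ (∀ t, 0 < t → 0 < ω t) ∧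
      (∀ t, 1 ≤ t → t ∈ D.Inner → Ψ t ≤ ω t) ∧
      ∀ (K : ℕ) (q h : ℝ), 0 ≤ q → q ∈ D.Z → (K = 0 ∨ D.U K / (2 * D.l) ≤ q) →
        2 * D.r K ≤ h → h ≤ D.l → ω q * w h ≤ 1 := by
  -- the bounds of the kernel
  have h1 : ∀ K : ℕ, ∃ C : ℝ, ∀ h, 2 * D.r K ≤ h → h ≤ D.l → w h ≤ C := fun K =>
    hw (2 * D.r K) (by linarith [D.r_pos K])
  choose C hC using h1
  let C' : ℕ → ℝ := fun K => 1 + ∑ j ∈ Finset.range (K + 1), |C j|
  have hC1 : ∀ K, 1 ≤ C' K := fun K => by
    have : 0 ≤ ∑ j ∈ Finset.range (K + 1), |C j| := Finset.sum_nonneg fun _ _ => abs_nonneg _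
    show 1 ≤ 1 + _
    linarith
  have hCC : ∀ K, C K ≤ C' K := fun K => by
    have h2 : |C K| ≤ ∑ j ∈ Finset.range (K + 1), |C j| :=
      Finset.single_le_sum (f := fun j => |C j|) (fun _ _ => abs_nonneg _)
        (Finset.mem_range.2 (Nat.lt_succ_self K))
    have h3 := le_abs_self (C K)
    show C K ≤ 1 + _
    linarith
  have hCm : Monotone C' := by
    intro i j hij
    have h2 : ∑ n ∈ Finset.range (i + 1), |C n| ≤ ∑ n ∈ Finset.range (j + 1), |C n| :=
      Finset.sum_le_sum_of_subset_of_nonneg (Finset.range_mono (by omega))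
        fun _ _ _ => abs_nonneg _
    show 1 + _ ≤ 1 + _
    linarith
  let t : ℝ → Set ℝ := fun x => {y | 0 < y ∧
    (x ∈ D.Z → ∀ K : ℕ, (K = 0 ∨ D.U K / (2 * D.l) ≤ x) → y * C' K ≤ 1) ∧
    (x ∈ D.Inner → Ψ x ≤ y)}
  have ht : ∀ x, Convex ℝ (t x) := by
    intro x
    rw [convex_iff_forall_pos]
    rintro y ⟨hy1, hy2, hy3⟩ z ⟨hz1, hz2, hz3⟩ p q hp hq hpq
    refine ⟨?_, ?_, ?_⟩
    · simp only [smul_eq_mul]; positivity
    · intro hx K hK
      have e1 := hy2 hx K hK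
      have e2 := hz2 hx K hK
      simp only [smul_eq_mul]
      nlinarith [mul_le_mul_of_nonneg_left e1 hp.le, mul_le_mul_of_nonneg_left e2 hq.le]
    · intro hx
      have e1 := hy3 hx
      have e2 := hz3 hx
      simp only [smul_eq_mul]
      have e3 : p * Ψ x + q * Ψ x = Ψ x := by rw [← add_mul, hpq, one_mul]
      nlinarith [mul_le_mul_of_nonneg_left e1 hp.le, mul_le_mul_of_nonneg_left e2 hq.le]
  have hH : ∀ x : ℝ, ∃ c : ℝ, ∀ᶠ y in 𝓝 x, c ∈ t y := by
    intro x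
    by_cases hx : x ∈ D.Z
    · obtain ⟨N, hN⟩ := D.s_large (x + 1)
      refine ⟨1 / C' N, ?_⟩
      have hpos : 0 < C' N := by linarith [hC1 N]
      have h2 : ∀ᶠ y in 𝓝 x, |y - x| < min (D.a 0) 1 := by
        have := Metric.ball_mem_nhds x (lt_min (D.a_pos 0) one_pos)
        filter_upwards [this] with y hy
        rwa [Metric.mem_ball, Real.dist_eq] at hy
      filter_upwards [h2] with y hy
      have hy1 := lt_of_lt_of_le hy (min_le_left _ _)
      have hy2 := lt_of_lt_of_le hy (min_le_right _ _)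
      refine ⟨by positivity, ?_, fun h => absurd h (D.inner_far hx hy1)⟩
      intro _ K hK
      have hKN : K ≤ N := by
        rcases hK with h | h
        · omega
        · by_contra hcon
          push Not at hcon
          have h3 := hN K hcon.le
          have h4 := (abs_lt.1 hy2).2
          linarith
      rw [one_div, inv_mul_le_iff₀ hpos, mul_one]
      exact hCm hKN
    · have h2 : ∀ᶠ y in 𝓝 x, y ∈ D.Zᶜ := D.isOpen_compl_Z.mem_nhds hx
      obtain ⟨C0, hC0⟩ := hΨ (x + 1)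
      refine ⟨max 1 C0, ?_⟩
      have h3 : ∀ᶠ y in 𝓝 x, y < x + 1 := gt_mem_nhds (by linarith)
      have hx0 : 0 < x := by
        simp only [Z, mem_compl_iff, not_not, mem_iUnion, mem_Ioo] at hx
        obtain ⟨k, h4, -⟩ := hx
        linarith [D.a_pos k]
      have h4 : ∀ᶠ y in 𝓝 x, 0 < y := lt_mem_nhds hx0
      filter_upwards [h2, h3, h4] with y hy1 hy2 hy3
      exact ⟨lt_max_of_lt_left one_pos, fun h => absurd h hy1,
        fun _ => (hC0 y hy3.le hy2.le).trans (le_max_right _ _)⟩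
  obtain ⟨g, hg⟩ := exists_continuous_forall_mem_convex_of_local_const ht hH
  refine ⟨fun x => g x * min (max x 0) 1, ?_, ?_, ?_, ?_, ?_, ?_⟩
  · have := g.continuous
    fun_prop
  · intro x _
    have := (hg x).1
    positivity
  · simp
  · intro x hx
    have h2 := (hg x).1
    have h3 : 0 < min (max x 0) 1 := lt_min (lt_max_of_lt_left hx) one_pos
    positivity
  · intro x hx hxI
    have h2 := (hg x).2.2 hxI
    have h3 : min (max x 0) 1 = 1 := min_eq_right (hx.trans (le_max_left _ _))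
    simp only [h3, mul_one]
    exact h2
  · intro K q h hq hqZ hK hh1 hh2
    have h2 := (hg q).1
    have h3 := (hg q).2.1 hqZ K hK
    have h4 : w h ≤ C' K := (hC K h hh1 hh2).trans (hCC K)
    have h5 : 0 ≤ min (max q 0) 1 := le_min (le_max_right _ _) zero_le_one
    have h6 : min (max q 0) 1 ≤ 1 := min_le_right _ _
    have hC0 : 0 ≤ C' K := by linarith [hC1 K]
    calc g q * min (max q 0) 1 * w h ≤ g q * min (max q 0) 1 * C' K :=
          mul_le_mul_of_nonneg_left h4 (mul_nonneg h2.le h5)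
      _ ≤ g q * 1 * C' K := by gcongr
      _ ≤ 1 := by rw [mul_one]; exact h3

end Dat

end Pool.Agent.Y893.NL
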